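import Pool.Agent.Y766.R11.Stm

/-!
Statements for project R11, second part: a local zero density theorem in thin cosets.
-/

set_option autoImplicit false

namespace Pool.Agent.Y766.R11

open Finset

/-- FMX: FM1 extended to `Re s ≤ 10` -/
def S_FMX : Prop := ∀ δ : ℝ, 0 < δ → ∃ κ : ℝ, 0 < κ ∧ κ ≤ 1 / 100 ∧ ∀ T Λ : ℝ, 0 < Λ →
  ∃ C c : ℝ, 0 < C ∧ 0 < c ∧ ∀ (p : ℕ) [Fact p.Prime], 7 ≤ p → ∃ ν₀ : ℕ,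
  ∀ (ν m : ℕ) (hmν : m < ν), ν₀ ≤ ν → (19 / 58 + δ) * ν ≤ m →
  ∀ χ : DirichletCharacter ℂ (p ^ ν), χ.IsPrimitive → ∀ s : ℂ,
  1 / 2 - Λ / (ν * Real.log p) ≤ s.re → s.re ≤ 10 → |s.im| ≤ T →
    ∑ θ : DirichletCharacter ℂ (p ^ m),
      ‖(χ * DirichletCharacter.changeLevel (pow_dvd_pow p hmν.le) θ).LFunction s *
        MP (χ * DirichletCharacter.changeLevel (pow_dvd_pow p hmν.le) θ) κ s - 1‖ ^ 2 ≤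
      C * Real.exp (-c * (s.re - 1 / 2) * (ν * Real.log p)) * (p : ℝ) ^ m

/-- TRX: the trivial bound for the number of zeros -/
def S_TRX : Prop := ∀ T : ℝ, ∃ C : ℝ, 0 < C ∧ ∀ (q : ℕ) [NeZero q], 1 < q →
  ∀ χ : DirichletCharacter ℂ q, χ.IsPrimitive → ∀ t : ℝ, |t| ≤ T → ∀ S : Finset ℂ,
  (∀ ρ ∈ S, ‖ρ - (2 + (t : ℂ) * Complex.I)‖ ≤ 7 / 4) →
  ((∑ ρ ∈ S, analyticOrderNatAt χ.LFunction ρ : ℕ) : ℝ) ≤ C * Real.log q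

/-- SYM: the symmetry of the zeros -/
def S_SYM : Prop := ∀ (q : ℕ) [NeZero q], 1 < q → ∀ χ : DirichletCharacter ℂ q, χ.IsPrimitive →
  ∀ ρ : ℂ, 0 < ρ.re → ρ.re < 1 →
  analyticOrderNatAt χ.LFunction (1 - (starRingEnd ℂ) ρ) = analyticOrderNatAt χ.LFunction ρ

/-- ZDL: the local zero density theorem -/
def S_ZDL : Prop := ∀ δ T Λ : ℝ, 0 < δ → 0 < Λ → ∃ C c : ℝ, 0 < C ∧ 0 < c ∧
  ∀ (p : ℕ) [Fact p.Prime], 7 ≤ p → ∃ ν₀ : ℕ,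
  ∀ (ν m : ℕ) (hmν : m < ν), ν₀ ≤ ν → (19 / 58 + δ) * ν ≤ m →
  ∀ χ : DirichletCharacter ℂ (p ^ ν), χ.IsPrimitive → ∀ t : ℝ, |t| ≤ T →
  ∀ a : ℝ, -Λ ≤ a → ∀ S : DirichletCharacter ℂ (p ^ m) → Finset ℂ,
  (∀ θ, ∀ ρ ∈ S θ, 1 / 2 + a / (ν * Real.log p) ≤ ρ.re ∧
    |ρ.im - t| ≤ Λ / (ν * Real.log p)) →
    ((∑ θ : DirichletCharacter ℂ (p ^ m), ∑ ρ ∈ S θ, analyticOrderNatAt
      (χ * DirichletCharacter.changeLevel (pow_dvd_pow p hmν.le) θ).LFunction ρ : ℕ) : ℝ) ≤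
      C * Real.exp (-c * a) * (p : ℝ) ^ m

/-- ZDF: the final form -/
def S_ZDF : Prop := ∀ δ T Λ : ℝ, 0 < δ → 0 < Λ → ∃ C c : ℝ, 0 < C ∧ 0 < c ∧
  ∀ (p : ℕ) [Fact p.Prime], 7 ≤ p → ∃ ν₀ : ℕ,
  ∀ (ν m : ℕ) (hmν : m < ν), ν₀ ≤ ν → (19 / 58 + δ) * ν ≤ m →
  ∀ χ : DirichletCharacter ℂ (p ^ ν), χ.IsPrimitive → ∀ t : ℝ, |t| ≤ T →
  ∀ a : ℝ, 0 ≤ a → ∀ S : DirichletCharacter ℂ (p ^ m) → Finset ℂ,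
  (∀ θ, ∀ ρ ∈ S θ, 0 < ρ.re ∧ ρ.re < 1 ∧ a / (ν * Real.log p) ≤ |ρ.re - 1 / 2| ∧
    |ρ.im - t| ≤ Λ / (ν * Real.log p)) →
    ((∑ θ : DirichletCharacter ℂ (p ^ m), ∑ ρ ∈ S θ, analyticOrderNatAt
      (χ * DirichletCharacter.changeLevel (pow_dvd_pow p hmν.le) θ).LFunction ρ : ℕ) : ℝ) ≤
      C * Real.exp (-c * a) * (p : ℝ) ^ m

end Pool.Agent.Y766.R11
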