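import Pool.Agent.Y766.R10.Stm

/-!
Statements for project R11: on average over the members of a coset of the characters mod `p^m`,
`L(s, χθ)` has a bounded number of zeros at distance `O(1 / log q)` of any point `1/2 + it`.
-/

set_option autoImplicit false

namespace Pool.Agent.Y766.R11

open Finset
open Pool.Agent.Y766.R3 (FF)
open Pool.Agent.Y766.R10 (WG mw QG)

/-- the region `1/2 - Λ / log q ≤ Re s ≤ 3/4`, `|Im s| ≤ T` -/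
def Reg (q T Λ : ℝ) (s : ℂ) : Prop :=
  1 / 2 - Λ / Real.log q ≤ s.re ∧ s.re ≤ 3 / 4 ∧ |s.im| ≤ T

/-- AFG: the approximate functional equation of a primitive character of parity `a`, at `s` -/
def S_AFG : Prop := ∀ (q : ℕ) [NeZero q], 1 < q → ∀ χ : DirichletCharacter ℂ q, χ.IsPrimitive →
  ∀ a : ℕ, a ≤ 1 → χ (-1) = (-1) ^ a → ∃ w : ℂ, ‖w‖ = 1 ∧ ∀ s : ℂ, 0 < s.re → s.re < 1 →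
  ∀ Y : ℝ, 0 < Y → χ.LFunction s =
    ∑' n : ℕ, χ ((n + 1 : ℕ) : ZMod q) * ((n + 1 : ℕ) : ℂ) ^ (-s) *
      QG ((s + a) / 2) (Real.pi * ((n : ℝ) + 1) ^ 2 * Y / q) +
    w * (((q : ℝ) / Real.pi : ℝ) : ℂ) ^ (1 / 2 - s) *
      (Complex.Gamma ((1 - s + a) / 2) / Complex.Gamma ((s + a) / 2)) *
    ∑' n : ℕ, (starRingEnd ℂ) (χ ((n + 1 : ℕ) : ZMod q)) * ((n + 1 : ℕ) : ℂ) ^ (-(1 - s)) *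
      QG ((1 - s + a) / 2) (Real.pi * ((n : ℝ) + 1) ^ 2 / (Y * q))

/-- smooth partial sums at `s` -/
noncomputable def AS {q : ℕ} (χ : DirichletCharacter ℂ q) (G : ℝ → ℂ) (s : ℂ) : ℂ :=
  ∑ n ∈ Icc 1 q, G (Real.log n / Real.log q) * (χ (n : ZMod q) * (n : ℂ) ^ (-s))

/-- AFS: the approximate functional equation at `s` with smooth weights in `log n / log q` -/
def S_AFS : Prop := ∀ T Λ ρ : ℝ, 0 < Λ → 0 < ρ → ρ ≤ 1 / 100 → ∃ C q₀ : ℝ, 0 < C ∧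
  ∀ (q : ℕ) [NeZero q], q₀ ≤ q → ∀ a : ℕ, a ≤ 1 → ∀ s : ℂ, Reg q T Λ s →
  ∃ (G1 G2 : ℝ → ℂ), WG C G1 ∧ WG C G2 ∧ (∀ v, 1 / 2 + 3 * ρ ≤ v → G1 v = 0 ∧ G2 v = 0) ∧
    (∀ v, v ≤ 1 / 4 → ‖G1 v - 1‖ ≤ C * (q : ℝ) ^ (-(1 / 10) : ℝ)) ∧
    ∀ χ : DirichletCharacter ℂ q, χ.IsPrimitive → χ (-1) = (-1) ^ a → ∃ w : ℂ, ‖w‖ = 1 ∧
      ‖χ.LFunction s - (AS χ G1 s + w * (q : ℂ) ^ (1 / 2 - s) *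
        (starRingEnd ℂ) (AS χ G2 (1 - (starRingEnd ℂ) s)))‖ ≤ 1 / q

/-- the weight `n^{-s} G((log n - log l) / log q)` -/
noncomputable def ws (q : ℝ) (s : ℂ) (G : ℝ → ℂ) (l n : ℕ) : ℂ :=
  (n : ℂ) ^ (-s) * G ((Real.log n - Real.log l) / Real.log q)

/-- OFS: the off-diagonal terms at `s` -/
def S_OFS : Prop := ∀ δ : ℝ, 0 < δ → ∃ κ₁ η : ℝ, 0 < κ₁ ∧ κ₁ ≤ 1 / 100 ∧ 0 < η ∧ 30 * κ₁ ≤ η ∧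
  ∀ κ : ℝ, 0 < κ → κ ≤ κ₁ → ∀ T Λ : ℝ, 0 < Λ → ∀ p : ℕ, p.Prime → 7 ≤ p →
  ∃ (C : ℝ) (ν₀ : ℕ), 0 < C ∧ ∀ (ν m : ℕ), ν₀ ≤ ν → 1 ≤ m → m < ν → (19 / 58 + δ) * ν ≤ m →
  ∀ χ : DirichletCharacter ℂ (p ^ ν), χ.IsPrimitive → ∀ (B : ℝ) (G : ℝ → ℂ), WG B G →
  ∀ a : ℝ, a ≤ 1 / 2 + κ → (∀ v, v ∉ Set.Icc a (a + κ) → G v = 0) →
  ∀ s : ℂ, Reg ((p : ℝ) ^ ν) T Λ s →
  ∀ l1 l2 : ℕ, 1 ≤ l1 → 1 ≤ l2 → (l1 : ℝ) ≤ ((p : ℝ) ^ ν) ^ κ → (l2 : ℝ) ≤ ((p : ℝ) ^ ν) ^ κ →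
  ¬ p ∣ l1 → ¬ p ∣ l2 → ∀ M : ℕ, M + 1 = p ^ ν →
    ∑ h ∈ Icc 1 (M / p ^ m),
      ‖∑ n ∈ (Icc 1 M).filter (fun n => l2 ∣ n ∧ l1 ∣ n + p ^ m * h),
        FF χ ((p : ℤ) ^ m * (h : ℤ)) (n : ℤ) * (ws ((p : ℝ) ^ ν) s G l1 (n + p ^ m * h) *
          (starRingEnd ℂ) (ws ((p : ℝ) ^ ν) s G l2 n))‖ ≤
      C * B ^ 2 * ((p : ℝ) ^ ν) ^ (-η)

/-- the mollifier at `s` -/
noncomputable def MS {q : ℕ} (χ : DirichletCharacter ℂ q) (κ : ℝ) (s : ℂ) : ℂ :=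
  ∑ l ∈ Icc 1 ⌊(q : ℝ) ^ κ⌋₊, (mw q κ l : ℂ) * (χ (l : ZMod q) * (l : ℂ) ^ (-s))

/-- the mollifier with coefficients `μ(l)` for `l ≤ q^(κ/2)` -/
noncomputable def MP {q : ℕ} (χ : DirichletCharacter ℂ q) (κ : ℝ) (s : ℂ) : ℂ :=
  2 * MS χ κ s - MS χ (κ / 2) s

/-- MSR: the mollified mean square at `s`, short ranges of `n` -/
def S_MSR : Prop := ∀ δ : ℝ, 0 < δ → ∃ κ₁ η : ℝ, 0 < κ₁ ∧ κ₁ ≤ 1 / 100 ∧ 0 < η ∧ 20 * κ₁ ≤ η ∧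
  ∀ κ : ℝ, 0 < κ → κ ≤ κ₁ → ∀ T Λ : ℝ, 0 < Λ → ∃ C : ℝ, 0 < C ∧
  ∀ (p : ℕ) [Fact p.Prime], 7 ≤ p → ∃ ν₀ : ℕ,
  ∀ (ν m : ℕ) (hmν : m < ν), ν₀ ≤ ν → (19 / 58 + δ) * ν ≤ m →
  ∀ χ : DirichletCharacter ℂ (p ^ ν), χ.IsPrimitive → ∀ (B : ℝ) (G : ℝ → ℂ), WG B G →
  ∀ a : ℝ, a ≤ 1 / 2 + κ → (∀ v, v ∉ Set.Icc a (a + κ) → G v = 0) →
  ∀ s : ℂ, Reg ((p : ℝ) ^ ν) T Λ s →
    ∑ θ : DirichletCharacter ℂ (p ^ m),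
      ‖AS (χ * DirichletCharacter.changeLevel (pow_dvd_pow p hmν.le) θ) G s *
        MP (χ * DirichletCharacter.changeLevel (pow_dvd_pow p hmν.le) θ) κ s‖ ^ 2 ≤
      C * B ^ 2 * (((p : ℝ) ^ ν) ^ (-2 * (s.re - 1 / 2) * max a 0) + ((p : ℝ) ^ ν) ^ (-η)) *
        (p : ℝ) ^ m

/-- MSZ: the same for the first range, with the main term removed -/
def S_MSZ : Prop := ∀ δ : ℝ, 0 < δ → ∃ κ₁ η : ℝ, 0 < κ₁ ∧ κ₁ ≤ 1 / 100 ∧ 0 < η ∧ 20 * κ₁ ≤ η ∧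
  ∀ κ : ℝ, 0 < κ → κ ≤ κ₁ → ∀ T Λ : ℝ, 0 < Λ → ∃ C : ℝ, 0 < C ∧
  ∀ (p : ℕ) [Fact p.Prime], 7 ≤ p → ∃ ν₀ : ℕ,
  ∀ (ν m : ℕ) (hmν : m < ν), ν₀ ≤ ν → (19 / 58 + δ) * ν ≤ m →
  ∀ χ : DirichletCharacter ℂ (p ^ ν), χ.IsPrimitive → ∀ (B : ℝ) (G : ℝ → ℂ), WG B G →
  (∀ v, v ∉ Set.Icc (-(κ / 4)) (3 * κ / 4) → G v = 0) →
  ∀ e₀ : ℝ, 0 ≤ e₀ → (∀ v, 0 ≤ v → v ≤ κ / 4 → ‖G v - 1‖ ≤ e₀) →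
  ∀ s : ℂ, Reg ((p : ℝ) ^ ν) T Λ s →
    ∑ θ : DirichletCharacter ℂ (p ^ m),
      ‖AS (χ * DirichletCharacter.changeLevel (pow_dvd_pow p hmν.le) θ) G s *
        MP (χ * DirichletCharacter.changeLevel (pow_dvd_pow p hmν.le) θ) κ s - 1‖ ^ 2 ≤
      C * (B ^ 2 * (((p : ℝ) ^ ν) ^ (-(κ / 2) * (s.re - 1 / 2)) + ((p : ℝ) ^ ν) ^ (-η)) +
        e₀ ^ 2 * (1 + ν * Real.log p) ^ 4) * (p : ℝ) ^ m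

/-- FM1: the mollified `L`-functions are close to `1` on average -/
def S_FM1 : Prop := ∀ δ : ℝ, 0 < δ → ∃ κ : ℝ, 0 < κ ∧ κ ≤ 1 / 100 ∧ ∀ T Λ : ℝ, 0 < Λ →
  ∃ C c : ℝ, 0 < C ∧ 0 < c ∧ ∀ (p : ℕ) [Fact p.Prime], 7 ≤ p → ∃ ν₀ : ℕ,
  ∀ (ν m : ℕ) (hmν : m < ν), ν₀ ≤ ν → (19 / 58 + δ) * ν ≤ m →
  ∀ χ : DirichletCharacter ℂ (p ^ ν), χ.IsPrimitive → ∀ s : ℂ, Reg ((p : ℝ) ^ ν) T Λ s →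
    ∑ θ : DirichletCharacter ℂ (p ^ m),
      ‖(χ * DirichletCharacter.changeLevel (pow_dvd_pow p hmν.le) θ).LFunction s *
        MP (χ * DirichletCharacter.changeLevel (pow_dvd_pow p hmν.le) θ) κ s - 1‖ ^ 2 ≤
      C * Real.exp (-c * (s.re - 1 / 2) * (ν * Real.log p)) * (p : ℝ) ^ m

/-- JEN: counting zeros by Jensen's formula -/
def S_JEN : Prop := ∀ f : ℂ → ℂ, Differentiable ℂ f → ∀ (c : ℂ) (r R : ℝ), 0 < r → r < R →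
  f c ≠ 0 → ∀ S : Finset ℂ, (∀ ρ ∈ S, ‖ρ - c‖ ≤ r) →
  ((∑ ρ ∈ S, analyticOrderNatAt f ρ : ℕ) : ℝ) * Real.log (R / r) ≤
    Real.circleAverage (fun z => Real.posLog ‖f z‖) c R - Real.log ‖f c‖

/-- TRV: the trivial bound for the number of zeros -/
def S_TRV : Prop := ∀ T : ℝ, ∃ C : ℝ, 0 < C ∧ ∀ (q : ℕ) [NeZero q], 1 < q →
  ∀ χ : DirichletCharacter ℂ q, χ.IsPrimitive → ∀ t : ℝ, |t| ≤ T → ∀ S : Finset ℂ,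
  (∀ ρ ∈ S, ‖ρ - (1 / 2 + (t : ℂ) * Complex.I)‖ ≤ 1 / 4) →
  ((∑ ρ ∈ S, analyticOrderNatAt χ.LFunction ρ : ℕ) : ℝ) ≤ C * Real.log q

/-- ZAV: the average number of zeros close to a point of the critical line -/
def S_ZAV : Prop := ∀ δ T Λ : ℝ, 0 < δ → 0 < Λ → ∃ C : ℝ, 0 < C ∧
  ∀ (p : ℕ) [Fact p.Prime], 7 ≤ p → ∃ ν₀ : ℕ,
  ∀ (ν m : ℕ) (hmν : m < ν), ν₀ ≤ ν → (19 / 58 + δ) * ν ≤ m →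
  ∀ χ : DirichletCharacter ℂ (p ^ ν), χ.IsPrimitive → ∀ t : ℝ, |t| ≤ T →
  ∀ S : DirichletCharacter ℂ (p ^ m) → Finset ℂ,
  (∀ θ, ∀ ρ ∈ S θ, ‖ρ - (1 / 2 + (t : ℂ) * Complex.I)‖ ≤ Λ / (ν * Real.log p)) →
    ((∑ θ : DirichletCharacter ℂ (p ^ m), ∑ ρ ∈ S θ, analyticOrderNatAt
      (χ * DirichletCharacter.changeLevel (pow_dvd_pow p hmν.le) θ).LFunction ρ : ℕ) : ℝ) ≤
      C * (p : ℝ) ^ m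

end Pool.Agent.Y766.R11
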