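import Mathlib

/-!
Counting zeros near a point from a mollified mean square: abstract lemmas.
-/

set_option autoImplicit false

namespace Pool.Agent.Y766.R11

open Finset

lemma posLog_le_sub (z : ℂ) : Real.posLog ‖z‖ ≤ ‖z - 1‖ := by
  rw [Real.posLog_def]
  apply max_le (norm_nonneg _)
  rcases eq_or_ne z 0 with h | h
  · rw [h]; simp
  · have h1 : 0 < ‖z‖ := norm_pos_iff.2 h
    have h2 := Real.log_le_sub_one_of_pos h1
    have h3 : ‖z‖ ≤ ‖z - 1‖ + 1 := by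
      calc ‖z‖ = ‖(z - 1) + 1‖ := by ring_nf
        _ ≤ ‖z - 1‖ + ‖(1 : ℂ)‖ := norm_add_le _ _
        _ = _ := by simp
    linarith

lemma neg_log_le {z : ℂ} (h : ‖z - 1‖ ≤ 1 / 2) : -Real.log ‖z‖ ≤ 2 * ‖z - 1‖ := by
  have h3 : 1 ≤ ‖z‖ + ‖z - 1‖ := by
    calc (1 : ℝ) = ‖z - (z - 1)‖ := by simp
      _ ≤ _ := norm_sub_le _ _
  have h4 : 0 ≤ ‖z - 1‖ := norm_nonneg _
  have h1 : 0 < ‖z‖ := by linarith
  have h2 := Real.one_sub_inv_le_log_of_pos h1
  have h5 : ‖z‖⁻¹ ≤ 1 + 2 * ‖z - 1‖ := by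
    rw [inv_le_comm₀ h1 (by linarith)]
    rw [inv_le_iff_one_le_mul₀ (by linarith)]
    nlinarith
  linarith

lemma ne_zero_of_near {z : ℂ} (h : ‖z - 1‖ ≤ 1 / 2) : z ≠ 0 := by
  intro h0
  rw [h0] at h
  simp at h
  norm_num at h

/-- Cauchy-Schwarz for circle averages -/
lemma cs_circ {ι : Type} (B : Finset ι) (g : ι → ℂ → ℝ) (hg : ∀ i ∈ B, Continuous (g i)) (c : ℂ)
    (R M N : ℝ) (hR : 0 < R) (hM0 : 0 ≤ M) (hN : (B.card : ℝ) ≤ N)
    (hM : ∀ z, ‖z - c‖ = R → ∑ i ∈ B, g i z ^ 2 ≤ M) :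
    ∑ i ∈ B, Real.circleAverage (g i) c R ≤ Real.sqrt (N * M) := by
  have hci : ∀ i ∈ B, CircleIntegrable (g i) c R := fun i hi =>
    ContinuousOn.circleIntegrable hR.le (hg i hi).continuousOn
  rw [← Real.circleAverage_fun_sum hci]
  apply Real.circleAverage_mono_on_of_le_circle
  · apply ContinuousOn.circleIntegrable hR.le
    exact (continuous_finset_sum B hg).continuousOn
  · intro z hz
    rw [Metric.mem_sphere, dist_eq_norm, abs_of_pos hR] at hz
    apply Real.le_sqrt_of_sq_le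
    calc (∑ i ∈ B, g i z) ^ 2 ≤ (B.card : ℝ) * ∑ i ∈ B, g i z ^ 2 := sq_sum_le_card_mul_sum_sq
      _ ≤ N * M := by
          apply mul_le_mul hN (hM z hz) (sum_nonneg fun i _ => sq_nonneg _)
          exact (Nat.cast_nonneg _).trans hN

/-- one step: the members with a value near `1` at the centre -/
lemma step {ι : Type} (B : Finset ι) (f : ι → ℂ → ℂ) (hf : ∀ i ∈ B, Continuous (f i))
    (n : ι → ℝ) (c : ℂ) (r R x M N : ℝ) (hR : 0 < R) (hx : 0 < x)
    (hlog : 1 / (6 * x) ≤ Real.log (R / r)) (hM0 : 0 ≤ M) (hN : (B.card : ℝ) ≤ N)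
    (hn : ∀ i ∈ B, 0 ≤ n i)
    (hJ : ∀ i ∈ B, f i c ≠ 0 → n i * Real.log (R / r) ≤
      Real.circleAverage (fun z => Real.posLog ‖f i z‖) c R - Real.log ‖f i c‖)
    (hM : ∀ z, ‖z - c‖ = R ∨ z = c → ∑ i ∈ B, ‖f i z - 1‖ ^ 2 ≤ M)
    (G : ι → Prop) [DecidablePred G] (hG : ∀ i ∈ B, G i → ‖f i c - 1‖ ≤ 1 / 2) :
    ∑ i ∈ B.filter G, n i ≤ 18 * x * Real.sqrt (N * M) := by
  have h1 : ∀ i ∈ B.filter G, n i ≤ 6 * x *
      (Real.circleAverage (fun z => ‖f i z - 1‖) c R + 2 * ‖f i c - 1‖) := by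
    intro i hi
    rw [mem_filter] at hi
    have h2 := hG i hi.1 hi.2
    have h3 := hJ i hi.1 (ne_zero_of_near h2)
    have h4 : Real.circleAverage (fun z => Real.posLog ‖f i z‖) c R ≤
        Real.circleAverage (fun z => ‖f i z - 1‖) c R := by
      apply Real.circleAverage_mono
      · apply ContinuousOn.circleIntegrable hR.le
        exact (Real.continuous_posLog.comp (hf i hi.1).norm).continuousOn
      · apply ContinuousOn.circleIntegrable hR.le
        exact ((hf i hi.1).sub continuous_const).norm.continuousOn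
      · intro z _
        exact posLog_le_sub (f i z)
    have h5 := neg_log_le h2
    have h6 : n i * (1 / (6 * x)) ≤ n i * Real.log (R / r) :=
      mul_le_mul_of_nonneg_left hlog (hn i hi.1)
    have h7 : n i * (1 / (6 * x)) ≤
        Real.circleAverage (fun z => ‖f i z - 1‖) c R + 2 * ‖f i c - 1‖ := by linarith
    have h8 : n i = 6 * x * (n i * (1 / (6 * x))) := by field_simp
    rw [h8]
    exact mul_le_mul_of_nonneg_left h7 (by positivity)
  have h2 : ∀ i ∈ B, 0 ≤ 6 * x *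
      (Real.circleAverage (fun z => ‖f i z - 1‖) c R + 2 * ‖f i c - 1‖) := by
    intro i _
    have h3 : 0 ≤ Real.circleAverage (fun z => ‖f i z - 1‖) c R :=
      Real.circleAverage_nonneg_of_nonneg fun z _ => norm_nonneg _
    positivity
  have h3 : ∑ i ∈ B, Real.circleAverage (fun z => ‖f i z - 1‖) c R ≤ Real.sqrt (N * M) :=
    cs_circ B (fun i z => ‖f i z - 1‖) (fun i hi => ((hf i hi).sub continuous_const).norm)
      c R M N hR hM0 hN fun z hz => hM z (Or.inl hz)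
  have h4 : ∑ i ∈ B, ‖f i c - 1‖ ≤ Real.sqrt (N * M) := by
    apply Real.le_sqrt_of_sq_le
    calc (∑ i ∈ B, ‖f i c - 1‖) ^ 2 ≤ (B.card : ℝ) * ∑ i ∈ B, ‖f i c - 1‖ ^ 2 :=
          sq_sum_le_card_mul_sum_sq
      _ ≤ N * M := by
          apply mul_le_mul hN (hM c (Or.inr rfl)) (sum_nonneg fun i _ => sq_nonneg _)
          exact (Nat.cast_nonneg _).trans hN
  calc ∑ i ∈ B.filter G, n i ≤ ∑ i ∈ B.filter G, 6 * x *
      (Real.circleAverage (fun z => ‖f i z - 1‖) c R + 2 * ‖f i c - 1‖) := sum_le_sum h1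
    _ ≤ ∑ i ∈ B, 6 * x *
      (Real.circleAverage (fun z => ‖f i z - 1‖) c R + 2 * ‖f i c - 1‖) :=
        sum_le_sum_of_subset_of_nonneg (filter_subset _ _) fun i hi _ => h2 i hi
    _ = 6 * x * (∑ i ∈ B, Real.circleAverage (fun z => ‖f i z - 1‖) c R +
        2 * ∑ i ∈ B, ‖f i c - 1‖) := by
        rw [← mul_sum, sum_add_distrib, ← mul_sum]
    _ ≤ 6 * x * (Real.sqrt (N * M) + 2 * Real.sqrt (N * M)) := by
        apply mul_le_mul_of_nonneg_left _ (by positivity)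
        linarith
    _ = _ := by ring

/-- members with a value away from `1` -/
lemma cheb {ι : Type} (B : Finset ι) (f : ι → ℂ) (M : ℝ) (hM : ∑ i ∈ B, ‖f i - 1‖ ^ 2 ≤ M)
    (G : ι → Prop) [DecidablePred G] (hG : ∀ i ∈ B, G i → 1 / 2 < ‖f i - 1‖) :
    ((B.filter G).card : ℝ) ≤ 4 * M := by
  have h1 : ((B.filter G).card : ℝ) * (1 / 4) ≤ M := by
    calc ((B.filter G).card : ℝ) * (1 / 4) = ∑ i ∈ B.filter G, (1 / 4 : ℝ) := by
          rw [sum_const, nsmul_eq_mul]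
      _ ≤ ∑ i ∈ B.filter G, ‖f i - 1‖ ^ 2 := by
          refine sum_le_sum fun i hi => ?_
          rw [mem_filter] at hi
          have := hG i hi.1 hi.2
          nlinarith
      _ ≤ ∑ i ∈ B, ‖f i - 1‖ ^ 2 :=
          sum_le_sum_of_subset_of_nonneg (filter_subset _ _) fun i _ _ => sq_nonneg _
      _ ≤ M := hM
  linarith

/-- `∑ 2^i exp(-b 2^i)` over `i ≥ j` -/
lemma geo_sum {b : ℝ} (hb : 0 < b) (j J : ℕ) :
    ∑ i ∈ Icc j J, (2 : ℝ) ^ i * Real.exp (-(b * 2 ^ i)) ≤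
      32 / b ^ 2 * Real.exp (-(b / 2 * 2 ^ j)) := by
  have h1 : ∀ i ∈ Icc j J, (2 : ℝ) ^ i * Real.exp (-(b * 2 ^ i)) ≤
      16 / b ^ 2 * Real.exp (-(b / 2 * 2 ^ j)) * (1 / 2) ^ i := by
    intro i hi
    rw [mem_Icc] at hi
    have hx : (0 : ℝ) < 2 ^ i := by positivity
    have hji : (2 : ℝ) ^ j ≤ 2 ^ i := pow_le_pow_right₀ (by norm_num) hi.1
    have h2 : Real.exp (-(b / 4 * 2 ^ i)) ≤ 1 / (b / 4 * 2 ^ i) := by
      rw [Real.exp_neg, ← one_div]
      apply one_div_le_one_div_of_le (by positivity)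
      have := Real.add_one_le_exp (b / 4 * 2 ^ i)
      linarith
    have h3 : Real.exp (-(b / 2 * 2 ^ i)) ≤ Real.exp (-(b / 2 * 2 ^ j)) := by
      apply Real.exp_le_exp.2
      have := mul_le_mul_of_nonneg_left hji (by positivity : 0 ≤ b / 2)
      linarith
    have h4 : Real.exp (-(b * 2 ^ i)) = Real.exp (-(b / 4 * 2 ^ i)) * Real.exp (-(b / 4 * 2 ^ i)) *
        Real.exp (-(b / 2 * 2 ^ i)) := by
      rw [← Real.exp_add, ← Real.exp_add]
      congr 1
      ring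
    rw [h4]
    have h5 : Real.exp (-(b / 4 * 2 ^ i)) * Real.exp (-(b / 4 * 2 ^ i)) ≤
        1 / (b / 4 * 2 ^ i) * (1 / (b / 4 * 2 ^ i)) :=
      mul_le_mul h2 h2 (Real.exp_nonneg _) (by positivity)
    calc (2 : ℝ) ^ i * (Real.exp (-(b / 4 * 2 ^ i)) * Real.exp (-(b / 4 * 2 ^ i)) *
        Real.exp (-(b / 2 * 2 ^ i))) ≤
        (2 : ℝ) ^ i * (1 / (b / 4 * 2 ^ i) * (1 / (b / 4 * 2 ^ i)) *
          Real.exp (-(b / 2 * 2 ^ j))) := by
          apply mul_le_mul_of_nonneg_left _ hx.le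
          exact mul_le_mul h5 h3 (Real.exp_nonneg _) (by positivity)
      _ = _ := by
          rw [one_div_pow]
          field_simp
          norm_num
  refine (sum_le_sum h1).trans ?_
  rw [← mul_sum]
  have h2 : ∑ i ∈ Icc j J, (1 / 2 : ℝ) ^ i ≤ 2 := by
    calc ∑ i ∈ Icc j J, (1 / 2 : ℝ) ^ i ≤ ∑ i ∈ range (J + 1), (1 / 2 : ℝ) ^ i := by
          apply sum_le_sum_of_subset_of_nonneg
          · intro i hi
            rw [mem_Icc] at hi
            rw [mem_range]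
            omega
          · intro i _ _
            positivity
      _ ≤ 2 := by
          have := sum_geometric_two_le (J + 1)
          exact this
  calc 16 / b ^ 2 * Real.exp (-(b / 2 * 2 ^ j)) * ∑ i ∈ Icc j J, (1 / 2 : ℝ) ^ i ≤
      16 / b ^ 2 * Real.exp (-(b / 2 * 2 ^ j)) * 2 := by
        apply mul_le_mul_of_nonneg_left h2 (by positivity)
    _ = _ := by ring

end Pool.Agent.Y766.R11
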