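import Pool.Agent.Y766.R11.ZA

/-!
Counting zeros near a point from a mollified mean square: one zone.
-/

set_option autoImplicit false

namespace Pool.Agent.Y766.R11

open Finset

/-- the centres -/
noncomputable def ctr (t Λ L : ℝ) (i : ℕ) : ℂ :=
  ((1 / 2 + 3 * 2 ^ i * Λ / L : ℝ) : ℂ) + (t : ℂ) * Complex.I

lemma ctr_re (t Λ L : ℝ) (i : ℕ) : (ctr t Λ L i).re = 1 / 2 + 3 * 2 ^ i * Λ / L := by
  unfold ctr
  rw [Complex.add_re, Complex.ofReal_re, Complex.mul_re, Complex.ofReal_re, Complex.ofReal_im,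
    Complex.I_re, Complex.I_im]
  ring

lemma ctr_im (t Λ L : ℝ) (i : ℕ) : (ctr t Λ L i).im = t := by
  unfold ctr
  rw [Complex.add_im, Complex.ofReal_im, Complex.mul_im, Complex.ofReal_re, Complex.ofReal_im,
    Complex.I_re, Complex.I_im]
  ring

open Classical in
/-- the members of a family with a zero in one zone -/
theorem zone {ι : Type} [Fintype ι] {P C c Λ L C1 t : ℝ} (f : ι → ℂ → ℂ) (n : ι → ℝ) {j J : ℕ}
    (hjJ : j ≤ J) (hP : 0 ≤ P) (hC : 0 < C) (hc : 0 < c) (hΛ : 0 < Λ) (hC1 : 0 ≤ C1)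
    (hL : 20 * Λ ≤ L) (hJ1 : 2 ^ J * Λ ≤ 3 / 2 * L) (hJ2 : 3 / 4 * L ≤ 2 ^ J * Λ)
    (hcard : (Fintype.card ι : ℝ) ≤ P) (hf : ∀ i, Continuous (f i)) (hn : ∀ i, 0 ≤ n i)
    (hF : ∀ s : ℂ, 1 / 2 - 3 * Λ / L ≤ s.re → s.re ≤ 10 → |s.im - t| ≤ 5 →
      ∑ i, ‖f i s - 1‖ ^ 2 ≤ C * Real.exp (-c * (s.re - 1 / 2) * L) * P)
    (htriv : ∀ i, n i ≤ C1 * L)
    (hJen : ∀ θ, ∀ i, j ≤ i → i ≤ J → ∀ r R : ℝ, 0 < r → r < R →
      (3 * 2 ^ i - 2 ^ j + 3) * Λ / L ≤ r → f θ (ctr t Λ L i) ≠ 0 →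
      n θ * Real.log (R / r) ≤ Real.circleAverage (fun z => Real.posLog ‖f θ z‖) (ctr t Λ L i) R -
        Real.log ‖f θ (ctr t Λ L i)‖) :
    ∑ i, n i ≤ (18 * (Real.sqrt (C * Real.exp (4 * c * Λ)) +
        Real.sqrt (4 * C * (C * Real.exp (4 * c * Λ)))) * (128 / (c * Λ) ^ 2) +
      4 * C * C1 / c) * Real.exp (-(c * Λ / 4 * 2 ^ j)) * P := by
  have hL0 : 0 < L := by linarith
  have hΛL : Λ / L ≤ 1 / 20 := by
    rw [div_le_iff₀ hL0]; linarith
  -- the mean square on the circles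
  have hM : ∀ i, j ≤ i → i ≤ J → ∀ z, ‖z - ctr t Λ L i‖ = (3 * 2 ^ i - 2 ^ j + 4) * Λ / L ∨
      z = ctr t Λ L i →
      ∑ θ, ‖f θ z - 1‖ ^ 2 ≤ C * Real.exp (4 * c * Λ) * Real.exp (-(c * Λ * 2 ^ j)) * P := by
    intro i hi1 hi2 z hz
    have hji : (2 : ℝ) ^ j ≤ 2 ^ i := pow_le_pow_right₀ (by norm_num) hi1
    have hij : (2 : ℝ) ^ i ≤ 2 ^ J := pow_le_pow_right₀ (by norm_num) hi2
    have hj1 : (1 : ℝ) ≤ 2 ^ j := one_le_pow₀ (by norm_num)
    have hiL : 2 ^ i * (Λ / L) ≤ 3 / 2 := by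
      rw [← mul_div_assoc, div_le_iff₀ hL0]
      exact (mul_le_mul_of_nonneg_right hij hΛ.le).trans hJ1
    have hz1 : ‖z - ctr t Λ L i‖ ≤ (3 * 2 ^ i - 2 ^ j + 4) * (Λ / L) := by
      rcases hz with h | h
      · rw [h, mul_div_assoc]
      · rw [h, sub_self, norm_zero]
        have : 0 < Λ / L := by positivity
        nlinarith
    have hre := Complex.abs_re_le_norm (z - ctr t Λ L i)
    have him := Complex.abs_im_le_norm (z - ctr t Λ L i)
    rw [Complex.sub_re, ctr_re] at hre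
    rw [Complex.sub_im, ctr_im] at him
    have hw : 0 < Λ / L := by positivity
    have e1 : 3 * 2 ^ i * Λ / L = 3 * (2 ^ i * (Λ / L)) := by ring
    have e2 : (3 * 2 ^ i - 2 ^ j + 4) * (Λ / L) = 3 * (2 ^ i * (Λ / L)) - (2 ^ j - 4) * (Λ / L) := by
      ring
    rw [e1] at hre
    rw [e2] at hz1
    obtain ⟨h5, h6⟩ := abs_le.1 (hre.trans hz1)
    have h7 : -(3 * (Λ / L)) ≤ (2 ^ j - 4) * (Λ / L) := by nlinarith
    have h8 : (1 / 2 : ℝ) + (2 ^ j - 4) * (Λ / L) ≤ z.re := by linarith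
    have h9 : 1 / 2 - 3 * Λ / L ≤ z.re := by
      have : 3 * Λ / L = 3 * (Λ / L) := by ring
      linarith
    have h10 : z.re ≤ 10 := by linarith
    have h11 : |z.im - t| ≤ 5 := by
      refine (him.trans hz1).trans ?_
      linarith
    refine (hF z h9 h10 h11).trans ?_
    have h12 : Real.exp (-c * (z.re - 1 / 2) * L) ≤
        Real.exp (4 * c * Λ) * Real.exp (-(c * Λ * 2 ^ j)) := by
      rw [← Real.exp_add]
      apply Real.exp_le_exp.2
      have h13 : (2 ^ j - 4) * Λ ≤ (z.re - 1 / 2) * L := by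
        have h14 := mul_le_mul_of_nonneg_right h8 hL0.le
        have h15 : (2 ^ j - 4) * (Λ / L) * L = (2 ^ j - 4) * Λ := by
          field_simp
        nlinarith
      have := mul_le_mul_of_nonneg_left h13 hc.le
      nlinarith
    calc C * Real.exp (-c * (z.re - 1 / 2) * L) * P ≤
        C * (Real.exp (4 * c * Λ) * Real.exp (-(c * Λ * 2 ^ j))) * P := by
          apply mul_le_mul_of_nonneg_right _ hP
          exact mul_le_mul_of_nonneg_left h12 hC.le
      _ = _ := by ring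
  -- the exceptional sets
  have hA : ∀ i, i ≤ J → (((univ : Finset ι).filter
      (fun θ => ¬ ‖f θ (ctr t Λ L i) - 1‖ ≤ 1 / 2)).card : ℝ) ≤
      4 * (C * Real.exp (-(3 * c * Λ * 2 ^ i)) * P) := by
    intro i hi2
    have hij : (2 : ℝ) ^ i ≤ 2 ^ J := pow_le_pow_right₀ (by norm_num) hi2
    have hi1 : (1 : ℝ) ≤ 2 ^ i := one_le_pow₀ (by norm_num)
    have hiL : 2 ^ i * (Λ / L) ≤ 3 / 2 := by
      rw [← mul_div_assoc, div_le_iff₀ hL0]
      exact (mul_le_mul_of_nonneg_right hij hΛ.le).trans hJ1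
    have hw : 0 < Λ / L := by positivity
    have e1 : 3 * 2 ^ i * Λ / L = 3 * (2 ^ i * (Λ / L)) := by ring
    have e3 : 3 * Λ / L = 3 * (Λ / L) := by ring
    apply cheb univ (fun θ => f θ (ctr t Λ L i))
    · refine (hF (ctr t Λ L i) ?_ ?_ ?_).trans (le_of_eq ?_)
      · rw [ctr_re, e1, e3]
        nlinarith
      · rw [ctr_re, e1]
        linarith
      · rw [ctr_im, sub_self, abs_zero]
        norm_num
      · rw [ctr_re]
        congr 3
        field_simp
        ring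
    · intro θ _ h
      exact not_le.1 h
  -- one step
  have hstep : ∀ (B : Finset ι) (i : ℕ), j ≤ i → i ≤ J → ∀ N : ℝ, (B.card : ℝ) ≤ N →
      ∑ θ ∈ B.filter (fun θ => ‖f θ (ctr t Λ L i) - 1‖ ≤ 1 / 2), n θ ≤
      18 * 2 ^ i * Real.sqrt (N * (C * Real.exp (4 * c * Λ) * Real.exp (-(c * Λ * 2 ^ j)) * P)) := by
    intro B i hi1 hi2 N hN
    have hji : (2 : ℝ) ^ j ≤ 2 ^ i := pow_le_pow_right₀ (by norm_num) hi1
    have hj1 : (1 : ℝ) ≤ 2 ^ j := one_le_pow₀ (by norm_num)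
    have hx : (0 : ℝ) < 2 ^ i := by positivity
    have hr : 0 < (3 * 2 ^ i - 2 ^ j + 3) * Λ / L := by
      apply div_pos _ hL0
      apply mul_pos _ hΛ
      linarith
    have hrR : (3 * 2 ^ i - 2 ^ j + 3) * Λ / L < (3 * 2 ^ i - 2 ^ j + 4) * Λ / L := by
      apply div_lt_div_of_pos_right _ hL0
      nlinarith
    apply step B f (fun θ _ => hf θ) n (ctr t Λ L i) ((3 * 2 ^ i - 2 ^ j + 3) * Λ / L)
      ((3 * 2 ^ i - 2 ^ j + 4) * Λ / L) (2 ^ i) _ N (by linarith) hx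
    · -- the logarithm
      have hR0 : 0 < (3 * 2 ^ i - 2 ^ j + 4) * Λ / L := hr.trans hrR
      have h1 := Real.one_sub_inv_le_log_of_pos (div_pos hR0 hr)
      refine le_trans ?_ h1
      have h2 : ((3 * 2 ^ i - 2 ^ j + 4) * Λ / L / ((3 * 2 ^ i - 2 ^ j + 3) * Λ / L))⁻¹ =
          (3 * 2 ^ i - 2 ^ j + 3) / (3 * 2 ^ i - 2 ^ j + 4) := by
        have h3 : (3 * 2 ^ i - 2 ^ j + 3 : ℝ) ≠ 0 := by linarith
        have h4 : (3 * 2 ^ i - 2 ^ j + 4 : ℝ) ≠ 0 := by linarith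
        field_simp
      rw [h2]
      have h4 : (0 : ℝ) < 3 * 2 ^ i - 2 ^ j + 4 := by linarith
      have h5 : 1 - (3 * 2 ^ i - 2 ^ j + 3 : ℝ) / (3 * 2 ^ i - 2 ^ j + 4) =
          1 / (3 * 2 ^ i - 2 ^ j + 4) := by
        field_simp
        ring
      rw [h5]
      apply one_div_le_one_div_of_le h4
      linarith
    · positivity
    · exact hN
    · exact fun θ _ => hn θ
    · intro θ _ h0
      exact hJen θ i hi1 hi2 _ _ hr hrR le_rfl h0
    · intro z hz
      refine le_trans ?_ (hM i hi1 hi2 z hz)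
      exact sum_le_sum_of_subset_of_nonneg (subset_univ _) fun _ _ _ => sq_nonneg _
    · exact fun θ _ h => h
  obtain ⟨b, hb⟩ : ∃ b : ℝ, b = c * Λ / 2 := ⟨_, rfl⟩
  have hb0 : 0 < b := by rw [hb]; positivity
  obtain ⟨D, hD⟩ : ∃ D : ℝ, D = 18 * (Real.sqrt (C * Real.exp (4 * c * Λ)) +
        Real.sqrt (4 * C * (C * Real.exp (4 * c * Λ)))) := ⟨_, rfl⟩
  have hD1 : 18 * Real.sqrt (C * Real.exp (4 * c * Λ)) ≤ D := by
    rw [hD]
    have := Real.sqrt_nonneg (4 * C * (C * Real.exp (4 * c * Λ)))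
    linarith
  have hD2 : 18 * Real.sqrt (4 * C * (C * Real.exp (4 * c * Λ))) ≤ D := by
    rw [hD]
    have := Real.sqrt_nonneg (C * Real.exp (4 * c * Λ))
    linarith
  -- the induction
  have key : ∀ k, j ≤ k → k ≤ J → ∑ i, n i ≤
      ∑ i ∈ Icc j k, D * (2 ^ i * Real.exp (-(b * 2 ^ i))) * P +
      ∑ θ ∈ univ.filter (fun θ => ¬ ‖f θ (ctr t Λ L k) - 1‖ ≤ 1 / 2), n θ := by
    intro k hk
    induction k, hk using Nat.le_induction with
    | base =>
      intro hJ'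
      rw [Icc_self, sum_singleton,
        ← sum_filter_add_sum_filter_not univ (fun θ => ‖f θ (ctr t Λ L j) - 1‖ ≤ 1 / 2) n]
      apply add_le_add _ le_rfl
      refine (hstep univ j le_rfl hJ' P (by rw [card_univ]; exact hcard)).trans ?_
      have e1 : P * (C * Real.exp (4 * c * Λ) * Real.exp (-(c * Λ * 2 ^ j)) * P) =
          (C * Real.exp (4 * c * Λ)) * (P * Real.exp (-(b * 2 ^ j))) ^ 2 := by
        rw [mul_pow, ← Real.exp_nat_mul]
        have : Real.exp (-(c * Λ * 2 ^ j)) = Real.exp (((2 : ℕ) : ℝ) * -(b * 2 ^ j)) := by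
          congr 1
          rw [hb]
          push_cast
          ring
        rw [this]
        ring
      rw [e1, Real.sqrt_mul (by positivity), Real.sqrt_sq (by positivity)]
      calc 18 * 2 ^ j * (Real.sqrt (C * Real.exp (4 * c * Λ)) * (P * Real.exp (-(b * 2 ^ j)))) =
          (18 * Real.sqrt (C * Real.exp (4 * c * Λ))) * (2 ^ j * Real.exp (-(b * 2 ^ j))) * P := by
            ring
        _ ≤ _ := by
            apply mul_le_mul_of_nonneg_right _ hP
            exact mul_le_mul_of_nonneg_right hD1 (by positivity)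
    | succ k hk ih =>
      intro hJ'
      refine (ih (by omega)).trans ?_
      have hsub : Icc j (k + 1) = insert (k + 1) (Icc j k) := by
        ext x
        simp only [mem_Icc, mem_insert]
        omega
      have hnot : k + 1 ∉ Icc j k := by
        rw [mem_Icc]; omega
      rw [hsub, sum_insert hnot]
      obtain ⟨B, hB⟩ : ∃ B : Finset ι,
        B = univ.filter (fun θ => ¬ ‖f θ (ctr t Λ L k) - 1‖ ≤ 1 / 2) := ⟨_, rfl⟩
      rw [← hB]
      have h1 : ∑ θ ∈ B, n θ ≤ ∑ θ ∈ B.filter (fun θ => ‖f θ (ctr t Λ L (k + 1)) - 1‖ ≤ 1 / 2), n θ +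
          ∑ θ ∈ univ.filter (fun θ => ¬ ‖f θ (ctr t Λ L (k + 1)) - 1‖ ≤ 1 / 2), n θ := by
        rw [← sum_filter_add_sum_filter_not B (fun θ => ‖f θ (ctr t Λ L (k + 1)) - 1‖ ≤ 1 / 2) n]
        apply add_le_add le_rfl
        apply sum_le_sum_of_subset_of_nonneg
        · intro θ hθ
          rw [mem_filter] at hθ ⊢
          exact ⟨mem_univ _, hθ.2⟩
        · intro θ _ _
          exact hn θ
      have h2 := hstep B (k + 1) (by omega) hJ' (4 * (C * Real.exp (-(3 * c * Λ * 2 ^ k)) * P))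
        (by rw [hB]; exact hA k (by omega))
      have h3 : 18 * 2 ^ (k + 1) * Real.sqrt (4 * (C * Real.exp (-(3 * c * Λ * 2 ^ k)) * P) *
          (C * Real.exp (4 * c * Λ) * Real.exp (-(c * Λ * 2 ^ j)) * P)) ≤
          D * (2 ^ (k + 1) * Real.exp (-(b * 2 ^ (k + 1)))) * P := by
        have e1 : Real.sqrt (4 * (C * Real.exp (-(3 * c * Λ * 2 ^ k)) * P) *
          (C * Real.exp (4 * c * Λ) * Real.exp (-(c * Λ * 2 ^ j)) * P)) ≤
          Real.sqrt ((4 * C * (C * Real.exp (4 * c * Λ))) *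
            (P * Real.exp (-(b * 2 ^ (k + 1)))) ^ 2) := by
          apply Real.sqrt_le_sqrt
          rw [mul_pow, ← Real.exp_nat_mul]
          have e2 : Real.exp (-(3 * c * Λ * 2 ^ k)) * Real.exp (-(c * Λ * 2 ^ j)) ≤
              Real.exp (((2 : ℕ) : ℝ) * -(b * 2 ^ (k + 1))) := by
            rw [← Real.exp_add]
            apply Real.exp_le_exp.2
            rw [hb, pow_succ]
            push_cast
            have h5 : 0 < c * Λ * 2 ^ k := by positivity
            have h6 : 0 < c * Λ * 2 ^ j := by positivity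
            nlinarith
          calc 4 * (C * Real.exp (-(3 * c * Λ * 2 ^ k)) * P) *
              (C * Real.exp (4 * c * Λ) * Real.exp (-(c * Λ * 2 ^ j)) * P) =
              (4 * C * (C * Real.exp (4 * c * Λ)) * P ^ 2) *
              (Real.exp (-(3 * c * Λ * 2 ^ k)) * Real.exp (-(c * Λ * 2 ^ j))) := by ring
            _ ≤ (4 * C * (C * Real.exp (4 * c * Λ)) * P ^ 2) *
              Real.exp (((2 : ℕ) : ℝ) * -(b * 2 ^ (k + 1))) :=
                mul_le_mul_of_nonneg_left e2 (by positivity)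
            _ = _ := by ring
        have e0 : Real.sqrt ((4 * C * (C * Real.exp (4 * c * Λ))) *
            (P * Real.exp (-(b * 2 ^ (k + 1)))) ^ 2) =
            Real.sqrt (4 * C * (C * Real.exp (4 * c * Λ))) *
            (P * Real.exp (-(b * 2 ^ (k + 1)))) := by
          rw [Real.sqrt_mul (by positivity), Real.sqrt_sq (by positivity)]
        rw [e0] at e1
        calc 18 * 2 ^ (k + 1) * Real.sqrt (4 * (C * Real.exp (-(3 * c * Λ * 2 ^ k)) * P) *
          (C * Real.exp (4 * c * Λ) * Real.exp (-(c * Λ * 2 ^ j)) * P)) ≤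
            18 * 2 ^ (k + 1) * (Real.sqrt (4 * C * (C * Real.exp (4 * c * Λ))) *
              (P * Real.exp (-(b * 2 ^ (k + 1))))) :=
                mul_le_mul_of_nonneg_left e1 (by positivity)
          _ = (18 * Real.sqrt (4 * C * (C * Real.exp (4 * c * Λ)))) *
              (2 ^ (k + 1) * Real.exp (-(b * 2 ^ (k + 1)))) * P := by ring
          _ ≤ _ := by
              apply mul_le_mul_of_nonneg_right _ hP
              exact mul_le_mul_of_nonneg_right hD2 (by positivity)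
      linarith
  have h1 := key J hjJ le_rfl
  -- the exceptional set
  have h2 : ∑ θ ∈ univ.filter (fun θ => ¬ ‖f θ (ctr t Λ L J) - 1‖ ≤ 1 / 2), n θ ≤
      4 * C * C1 / c * Real.exp (-(c * Λ / 4 * 2 ^ j)) * P := by
    calc ∑ θ ∈ univ.filter (fun θ => ¬ ‖f θ (ctr t Λ L J) - 1‖ ≤ 1 / 2), n θ ≤
        ∑ θ ∈ univ.filter (fun θ => ¬ ‖f θ (ctr t Λ L J) - 1‖ ≤ 1 / 2), C1 * L :=
          sum_le_sum fun θ _ => htriv θ
      _ = ((univ.filter (fun θ => ¬ ‖f θ (ctr t Λ L J) - 1‖ ≤ 1 / 2)).card : ℝ) * (C1 * L) := by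
          rw [sum_const, nsmul_eq_mul]
      _ ≤ 4 * (C * Real.exp (-(3 * c * Λ * 2 ^ J)) * P) * (C1 * L) :=
          mul_le_mul_of_nonneg_right (hA J le_rfl) (by positivity)
      _ = 4 * C * C1 * P * (L * Real.exp (-(3 * c * Λ * 2 ^ J))) := by ring
      _ ≤ 4 * C * C1 * P * (1 / c * Real.exp (-(c * Λ / 4 * 2 ^ j))) := by
          apply mul_le_mul_of_nonneg_left _ (by positivity)
          have h3 : L * Real.exp (-(c * L)) ≤ 1 / c := by
            rw [Real.exp_neg, le_div_iff₀ hc, mul_assoc, mul_comm _ c, ← mul_assoc,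
              ← div_eq_mul_inv, div_le_one (Real.exp_pos _)]
            have := Real.add_one_le_exp (c * L)
            nlinarith
          have h4 : Real.exp (-(3 * c * Λ * 2 ^ J)) ≤
              Real.exp (-(c * L)) * Real.exp (-(c * Λ / 4 * 2 ^ j)) := by
            rw [← Real.exp_add]
            apply Real.exp_le_exp.2
            have hjJ' : (2 : ℝ) ^ j ≤ 2 ^ J := pow_le_pow_right₀ (by norm_num) hjJ
            have h5 := mul_le_mul_of_nonneg_left hJ2 hc.le
            have h6 := mul_le_mul_of_nonneg_left hjJ' (by positivity : 0 ≤ c * Λ / 4)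
            have h7 : 0 ≤ c * Λ * 2 ^ J := by positivity
            nlinarith
          calc L * Real.exp (-(3 * c * Λ * 2 ^ J)) ≤
              L * (Real.exp (-(c * L)) * Real.exp (-(c * Λ / 4 * 2 ^ j))) :=
                mul_le_mul_of_nonneg_left h4 hL0.le
            _ = (L * Real.exp (-(c * L))) * Real.exp (-(c * Λ / 4 * 2 ^ j)) := by ring
            _ ≤ _ := mul_le_mul_of_nonneg_right h3 (Real.exp_nonneg _)
      _ = _ := by ring
  have h3 : ∑ i ∈ Icc j J, D * (2 ^ i * Real.exp (-(b * 2 ^ i))) * P ≤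
      D * (128 / (c * Λ) ^ 2) * Real.exp (-(c * Λ / 4 * 2 ^ j)) * P := by
    rw [← sum_mul, ← mul_sum]
    apply mul_le_mul_of_nonneg_right _ hP
    have hD0 : 0 ≤ D := by
      refine le_trans ?_ hD1
      positivity
    rw [mul_assoc]
    apply mul_le_mul_of_nonneg_left _ hD0
    refine (geo_sum hb0 j J).trans (le_of_eq ?_)
    rw [hb]
    congr 1
    · field_simp
      norm_num
    · congr 1
      ring
  rw [← hD]
  have h4 : (D * (128 / (c * Λ) ^ 2) + 4 * C * C1 / c) * Real.exp (-(c * Λ / 4 * 2 ^ j)) * P =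
      D * (128 / (c * Λ) ^ 2) * Real.exp (-(c * Λ / 4 * 2 ^ j)) * P +
      4 * C * C1 / c * Real.exp (-(c * Λ / 4 * 2 ^ j)) * P := by ring
  rw [h4]
  exact h1.trans (add_le_add h3 h2)

end Pool.Agent.Y766.R11
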