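import Pool.Agent.Y766.R11.ZB

/-!
Counting zeros near a point from a mollified mean square: all zones.
-/

set_option autoImplicit false

namespace Pool.Agent.Y766.R11

open Finset

/-- the zones -/
def Zn (Λ L : ℝ) (j : ℕ) (ρ : ℂ) : Prop :=
  (2 ^ j - 2) * Λ ≤ (ρ.re - 1 / 2) * L ∧ (ρ.re - 1 / 2) * L ≤ 2 ^ (j + 1) * Λ ∧ ρ.re < 1

lemma zn_exists {Λ L a : ℝ} (hΛ : 0 < Λ) (hL : 20 * Λ ≤ L) {J : ℕ}
    (hJ : 3 / 2 * L < 2 ^ (J + 1) * Λ) (ha : -Λ ≤ a) {ρ : ℂ} (h1 : 1 / 2 + a / L ≤ ρ.re)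
    (h2 : ρ.re < 1) : ∃ j ∈ (range (J + 1)).filter (fun j => a ≤ 2 ^ (j + 1) * Λ), Zn Λ L j ρ := by
  have hL0 : 0 < L := by linarith
  obtain ⟨y, hy⟩ : ∃ y : ℝ, y = (ρ.re - 1 / 2) * L := ⟨_, rfl⟩
  have hya : a ≤ y := by
    have h3 : a / L ≤ ρ.re - 1 / 2 := by linarith
    rw [div_le_iff₀ hL0] at h3
    rw [hy]; exact h3
  have hy1 : y < L / 2 := by
    rw [hy]
    have : (ρ.re - 1 / 2) * L < (1 / 2) * L := by
      apply mul_lt_mul_of_pos_right _ hL0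
      linarith
    linarith
  rcases le_or_gt y (2 * Λ) with h | h
  · refine ⟨0, ?_, ?_, ?_, h2⟩
    · rw [mem_filter, mem_range]
      refine ⟨by omega, ?_⟩
      norm_num
      linarith
    · rw [← hy]; norm_num; linarith
    · rw [← hy]; norm_num; linarith
  · have h3 : 1 ≤ y / Λ := by
      rw [le_div_iff₀ hΛ]; linarith
    obtain ⟨j, hj1, hj2⟩ := exists_nat_pow_near h3 (by norm_num : (1 : ℝ) < 2)
    rw [le_div_iff₀ hΛ] at hj1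
    rw [div_lt_iff₀ hΛ] at hj2
    refine ⟨j, ?_, ?_, ?_, h2⟩
    · rw [mem_filter, mem_range]
      constructor
      · by_contra h4
        have h5 : (2 : ℝ) ^ (J + 1) ≤ 2 ^ j := pow_le_pow_right₀ (by norm_num) (by omega)
        have h6 := mul_le_mul_of_nonneg_right h5 hΛ.le
        linarith
      · linarith
    · rw [← hy]; linarith
    · rw [← hy]; linarith

lemma zn_dist {Λ L t : ℝ} (hΛ : 0 < Λ) (hL : 20 * Λ ≤ L) {i j : ℕ} (hji : j ≤ i) {ρ : ℂ}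
    (hZ : Zn Λ L j ρ) (him : |ρ.im - t| ≤ Λ / L) :
    ‖ρ - ctr t Λ L i‖ ≤ (3 * 2 ^ i - 2 ^ j + 3) * Λ / L := by
  have hL0 : 0 < L := by linarith
  have hji' : (2 : ℝ) ^ j ≤ 2 ^ i := pow_le_pow_right₀ (by norm_num) hji
  have h1 := Complex.norm_le_abs_re_add_abs_im (ρ - ctr t Λ L i)
  rw [Complex.sub_re, Complex.sub_im, ctr_re, ctr_im] at h1
  have h2 : |ρ.re - (1 / 2 + 3 * 2 ^ i * Λ / L)| ≤ (3 * 2 ^ i - 2 ^ j + 2) * Λ / L := by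
    have e1 : ρ.re - (1 / 2 + 3 * 2 ^ i * Λ / L) =
        ((ρ.re - 1 / 2) * L - 3 * 2 ^ i * Λ) / L := by
      field_simp
      ring
    rw [e1, abs_div, abs_of_pos hL0]
    apply div_le_div_of_nonneg_right _ hL0.le
    rw [abs_le]
    obtain ⟨h3, h4, -⟩ := hZ
    rw [pow_succ] at h4
    have h8 := mul_le_mul_of_nonneg_right hji' hΛ.le
    have h9 : (0 : ℝ) ≤ 2 ^ i * Λ := by positivity
    constructor
    · nlinarith
    · nlinarith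
  have h3 : (3 * 2 ^ i - 2 ^ j + 3) * Λ / L = (3 * 2 ^ i - 2 ^ j + 2) * Λ / L + Λ / L := by ring
  rw [h3]
  linarith

lemma zn_ball {Λ L t : ℝ} (hΛ : 0 < Λ) (hL : 20 * Λ ≤ L) {j : ℕ} {ρ : ℂ}
    (hZ : Zn Λ L j ρ) (him : |ρ.im - t| ≤ Λ / L) :
    ‖ρ - (2 + (t : ℂ) * Complex.I)‖ ≤ 7 / 4 := by
  have hL0 : 0 < L := by linarith
  have hΛL : Λ / L ≤ 1 / 20 := by
    rw [div_le_iff₀ hL0]; linarith
  have h1 := Complex.norm_le_abs_re_add_abs_im (ρ - (2 + (t : ℂ) * Complex.I))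
  have e1 : (ρ - (2 + (t : ℂ) * Complex.I)).re = ρ.re - 2 := by simp
  have e2 : (ρ - (2 + (t : ℂ) * Complex.I)).im = ρ.im - t := by simp
  rw [e1, e2] at h1
  obtain ⟨h3, -, h5⟩ := hZ
  have hj1 : (1 : ℝ) ≤ 2 ^ j := one_le_pow₀ (by norm_num)
  have h6 : -(1 / 20) ≤ ρ.re - 1 / 2 := by
    by_contra h7
    push Not at h7
    have h8 := mul_lt_mul_of_pos_right h7 hL0
    nlinarith
  have h7 : |ρ.re - 2| ≤ 31 / 20 := by
    rw [abs_le]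
    constructor <;> linarith
  linarith

/-- the constant of `zone` -/
noncomputable def KZ (C c Λ C1 : ℝ) : ℝ :=
  18 * (Real.sqrt (C * Real.exp (4 * c * Λ)) +
        Real.sqrt (4 * C * (C * Real.exp (4 * c * Λ)))) * (128 / (c * Λ) ^ 2) + 4 * C * C1 / c

theorem zones {ι : Type} [Fintype ι] {P C c Λ L C1 t : ℝ} (f : ι → ℂ → ℂ) (o : ι → ℂ → ℕ)
    (hP : 0 ≤ P) (hC : 0 < C) (hc : 0 < c) (hΛ : 0 < Λ) (hC1 : 0 ≤ C1)
    (hL : 20 * Λ ≤ L) (hcard : (Fintype.card ι : ℝ) ≤ P) (hf : ∀ i, Continuous (f i))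
    (hF : ∀ s : ℂ, 1 / 2 - 3 * Λ / L ≤ s.re → s.re ≤ 10 → |s.im - t| ≤ 5 →
      ∑ i, ‖f i s - 1‖ ^ 2 ≤ C * Real.exp (-c * (s.re - 1 / 2) * L) * P)
    (htriv : ∀ θ, ∀ S : Finset ℂ, (∀ ρ ∈ S, ‖ρ - (2 + (t : ℂ) * Complex.I)‖ ≤ 7 / 4) →
      ((∑ ρ ∈ S, o θ ρ : ℕ) : ℝ) ≤ C1 * L)
    (hone : ∀ θ, ∀ ρ : ℂ, 1 ≤ ρ.re → o θ ρ = 0)
    (hJen : ∀ θ, ∀ (z : ℂ) (r R : ℝ), 0 < r → r < R → f θ z ≠ 0 → ∀ S : Finset ℂ,
      (∀ ρ ∈ S, ‖ρ - z‖ ≤ r) → ((∑ ρ ∈ S, o θ ρ : ℕ) : ℝ) * Real.log (R / r) ≤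
      Real.circleAverage (fun z => Real.posLog ‖f θ z‖) z R - Real.log ‖f θ z‖)
    (a : ℝ) (ha : -Λ ≤ a) (S : ι → Finset ℂ)
    (hS : ∀ θ, ∀ ρ ∈ S θ, 1 / 2 + a / L ≤ ρ.re ∧ |ρ.im - t| ≤ Λ / L) :
    ((∑ θ, ∑ ρ ∈ S θ, o θ ρ : ℕ) : ℝ) ≤
      KZ C c Λ C1 * (16 / (c * Λ)) * Real.exp (-(c / 16) * a) * P := by
  classical
  have hL0 : 0 < L := by linarith
  have h3 : 1 ≤ 3 / 2 * L / Λ := by
    rw [le_div_iff₀ hΛ]; linarith
  obtain ⟨J, hJ1, hJ2⟩ := exists_nat_pow_near h3 (by norm_num : (1 : ℝ) < 2)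
  rw [le_div_iff₀ hΛ] at hJ1
  rw [div_lt_iff₀ hΛ] at hJ2
  have hJ3 : 3 / 4 * L ≤ 2 ^ J * Λ := by
    rw [pow_succ] at hJ2
    linarith
  obtain ⟨U, hU⟩ : ∃ U : Finset ℕ, U = (range (J + 1)).filter (fun j => a ≤ 2 ^ (j + 1) * Λ) :=
    ⟨_, rfl⟩
  -- the zones cover everything
  have hcov : ∀ θ, ∑ ρ ∈ S θ, o θ ρ ≤ ∑ j ∈ U, ∑ ρ ∈ (S θ).filter (fun ρ => Zn Λ L j ρ), o θ ρ := by
    intro θ
    have e1 : ∑ j ∈ U, ∑ ρ ∈ (S θ).filter (fun ρ => Zn Λ L j ρ), o θ ρ =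
        ∑ ρ ∈ S θ, ∑ j ∈ U, if Zn Λ L j ρ then o θ ρ else 0 := by
      rw [sum_comm]
      refine sum_congr rfl fun j _ => ?_
      rw [sum_filter]
    rw [e1]
    refine sum_le_sum fun ρ hρ => ?_
    rcases lt_or_ge ρ.re 1 with h | h
    · obtain ⟨j, hj1, hj2⟩ := zn_exists hΛ hL hJ2 ha (hS θ ρ hρ).1 h
      rw [← hU] at hj1
      calc o θ ρ = if Zn Λ L j ρ then o θ ρ else 0 := by rw [if_pos hj2]
        _ ≤ _ := single_le_sum (f := fun j => if Zn Λ L j ρ then o θ ρ else 0)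
            (fun _ _ => Nat.zero_le _) hj1
    · rw [hone θ ρ h]
      exact Nat.zero_le _
  have hz : ∀ j ∈ U, ((∑ θ, ∑ ρ ∈ (S θ).filter (fun ρ => Zn Λ L j ρ), o θ ρ : ℕ) : ℝ) ≤
      KZ C c Λ C1 * Real.exp (-(c * Λ / 4 * 2 ^ j)) * P := by
    intro j hj
    rw [hU, mem_filter, mem_range] at hj
    have h4 := zone (P := P) (C := C) (c := c) (Λ := Λ) (L := L) (C1 := C1) (t := t) f
      (fun θ => ((∑ ρ ∈ (S θ).filter (fun ρ => Zn Λ L j ρ), o θ ρ : ℕ) : ℝ)) (j := j) (J := J)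
      (by omega) hP hC hc hΛ hC1 hL hJ1 hJ3 hcard hf (fun θ => Nat.cast_nonneg _) hF
      (fun θ => htriv θ _ fun ρ hρ => by
        rw [mem_filter] at hρ
        exact zn_ball hΛ hL hρ.2 (hS θ ρ hρ.1).2)
      (fun θ i hi1 _ r R hr hrR hr' h0 => hJen θ _ r R hr hrR h0 _ fun ρ hρ => by
        rw [mem_filter] at hρ
        exact (zn_dist hΛ hL hi1 hρ.2 (hS θ ρ hρ.1).2).trans hr')
    unfold KZ
    push_cast at h4 ⊢
    exact h4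
  have hK : 0 ≤ KZ C c Λ C1 := by
    unfold KZ
    positivity
  have h4 : ∀ j ∈ U, KZ C c Λ C1 * Real.exp (-(c * Λ / 4 * 2 ^ j)) * P ≤
      KZ C c Λ C1 * (8 / (c * Λ)) * Real.exp (-(c / 16) * a) * P * (1 / 2) ^ j := by
    intro j hj
    rw [hU, mem_filter] at hj
    have h5 : Real.exp (-(c * Λ / 4 * 2 ^ j)) =
        Real.exp (-(c * Λ / 8 * 2 ^ j)) * Real.exp (-(c * Λ / 8 * 2 ^ j)) := by
      rw [← Real.exp_add]
      congr 1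
      ring
    have h6 : Real.exp (-(c * Λ / 8 * 2 ^ j)) ≤ 8 / (c * Λ) * (1 / 2) ^ j := by
      have h7 : Real.exp (-(c * Λ / 8 * 2 ^ j)) ≤ 1 / (c * Λ / 8 * 2 ^ j) := by
        rw [Real.exp_neg, ← one_div]
        apply one_div_le_one_div_of_le (by positivity)
        have := Real.add_one_le_exp (c * Λ / 8 * 2 ^ j)
        linarith
      refine h7.trans (le_of_eq ?_)
      rw [one_div_pow]
      field_simp
    have h7 : Real.exp (-(c * Λ / 8 * 2 ^ j)) ≤ Real.exp (-(c / 16) * a) := by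
      apply Real.exp_le_exp.2
      have := mul_le_mul_of_nonneg_left hj.2 (by positivity : 0 ≤ c / 16)
      rw [pow_succ] at this
      linarith
    rw [h5]
    calc KZ C c Λ C1 * (Real.exp (-(c * Λ / 8 * 2 ^ j)) * Real.exp (-(c * Λ / 8 * 2 ^ j))) * P ≤
        KZ C c Λ C1 * (8 / (c * Λ) * (1 / 2) ^ j * Real.exp (-(c / 16) * a)) * P := by
          apply mul_le_mul_of_nonneg_right _ hP
          apply mul_le_mul_of_nonneg_left _ hK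
          exact mul_le_mul h6 h7 (Real.exp_nonneg _) (by positivity)
      _ = _ := by ring
  have h5 : ∑ j ∈ U, (1 / 2 : ℝ) ^ j ≤ 2 := by
    calc ∑ j ∈ U, (1 / 2 : ℝ) ^ j ≤ ∑ j ∈ range (J + 1), (1 / 2 : ℝ) ^ j := by
          rw [hU]
          apply sum_le_sum_of_subset_of_nonneg (filter_subset _ _)
          intro i _ _
          positivity
      _ ≤ 2 := sum_geometric_two_le (J + 1)
  calc ((∑ θ, ∑ ρ ∈ S θ, o θ ρ : ℕ) : ℝ) ≤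
      ((∑ θ, ∑ j ∈ U, ∑ ρ ∈ (S θ).filter (fun ρ => Zn Λ L j ρ), o θ ρ : ℕ) : ℝ) := by
        exact_mod_cast sum_le_sum fun θ _ => hcov θ
    _ = ∑ j ∈ U, ((∑ θ, ∑ ρ ∈ (S θ).filter (fun ρ => Zn Λ L j ρ), o θ ρ : ℕ) : ℝ) := by
        rw [sum_comm]
        push_cast
        rfl
    _ ≤ ∑ j ∈ U, KZ C c Λ C1 * (8 / (c * Λ)) * Real.exp (-(c / 16) * a) * P * (1 / 2) ^ j :=
        sum_le_sum fun j hj => (hz j hj).trans (h4 j hj)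
    _ = KZ C c Λ C1 * (8 / (c * Λ)) * Real.exp (-(c / 16) * a) * P * ∑ j ∈ U, (1 / 2) ^ j := by
        rw [mul_sum]
    _ ≤ KZ C c Λ C1 * (8 / (c * Λ)) * Real.exp (-(c / 16) * a) * P * 2 := by
        apply mul_le_mul_of_nonneg_left h5
        positivity
    _ = _ := by ring

end Pool.Agent.Y766.R11
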