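import Pool.Agent.Y766.R11.Stm2
import Pool.Agent.Y766.R11.ZC
import Pool.Agent.Y907.R11.JenTrv
import Pool.Agent.Y766.R3.TE

/-!
The local zero density theorem in thin cosets from the mollified mean square.
-/

set_option autoImplicit false

namespace Pool.Agent.Y766.R11

open Finset
open Pool.Agent.Y766.R3 (prim_mul)
open Pool.Agent.Y907.R11 (l2 lb jen)

section TRX

open Complex Metric

theorem trxA
    (H : ∀ f : ℂ → ℂ, Differentiable ℂ f → ∀ (c : ℂ) (r R : ℝ), 0 < r → r < R →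
  f c ≠ 0 → ∀ S : Finset ℂ, (∀ ρ ∈ S, ‖ρ - c‖ ≤ r) →
  ((∑ ρ ∈ S, analyticOrderNatAt f ρ : ℕ) : ℝ) * Real.log (R / r) ≤
    Real.circleAverage (fun z => Real.posLog ‖f z‖) c R - Real.log ‖f c‖) :
    ∀ T : ℝ, ∃ C : ℝ, 0 < C ∧ ∀ (q : ℕ) [NeZero q], 1 < q →
  ∀ χ : DirichletCharacter ℂ q, χ.IsPrimitive → ∀ t : ℝ, |t| ≤ T → ∀ S : Finset ℂ,
  (∀ ρ ∈ S, ‖ρ - (2 + (t : ℂ) * Complex.I)‖ ≤ 7 / 4) →
  ((∑ ρ ∈ S, analyticOrderNatAt χ.LFunction ρ : ℕ) : ℝ) ≤ C * Real.log q := by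
  intro T
  have hl2 : 0 < Real.log 2 := Real.log_pos (by norm_num)
  set A : ℝ := 41 + 10 * |T| with hA
  have hA1 : 41 ≤ A := by rw [hA]; linarith [abs_nonneg T]
  have hlA : 0 ≤ Real.log A := Real.log_nonneg (by linarith)
  have hlr : 0 < Real.log (19 / 10 / (7 / 4)) := Real.log_pos (by norm_num)
  refine ⟨(Real.log A / Real.log 2 + 3) / Real.log (19 / 10 / (7 / 4)), by positivity, ?_⟩
  intro q _ hq χ hχp t ht S hS
  have hq2 : (2 : ℝ) ≤ q := by exact_mod_cast hq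
  have hlq : Real.log 2 ≤ Real.log q := Real.log_le_log (by norm_num) hq2
  have hχ : χ ≠ 1 := by
    intro h
    have h1 : χ.conductor = q := hχp
    rw [h, DirichletCharacter.conductor_one] at h1
    omega
  set c : ℂ := 2 + (t : ℂ) * Complex.I with hc
  have hl := l2 χ t
  rw [← hc] at hl
  have hc0 : χ.LFunction c ≠ 0 := by
    intro h
    rw [h, norm_zero] at hl
    norm_num at hl
  have hmain := H χ.LFunction (DirichletCharacter.differentiable_LFunction hχ) c (7 / 4) (19 / 10)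
    (by norm_num) (by norm_num) hc0 S (by
      intro ρ hρ
      rw [hc]
      exact hS ρ hρ)
  have hT0 : |t| ≤ |T| := ht.trans (le_abs_self T)
  have hav : Real.circleAverage (fun z => Real.posLog ‖χ.LFunction z‖) c (19 / 10) ≤
      Real.log (A * q) := by
    apply Real.circleAverage_mono_on_of_le_circle
    · apply ContinuousOn.circleIntegrable (by norm_num)
      apply Continuous.continuousOn
      exact Real.continuous_posLog.comp
        (DirichletCharacter.differentiable_LFunction hχ).continuous.norm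
    · intro z hz
      rw [mem_sphere, dist_eq_norm, abs_of_pos (by norm_num)] at hz
      have h1 : 1 / 10 ≤ z.re := by
        have h2 := Complex.abs_re_le_norm (z - c)
        rw [hz, Complex.sub_re] at h2
        have h3 : c.re = 2 := by simp [hc]
        rw [h3] at h2
        linarith [(abs_le.1 h2).1]
      have h2 : ‖z‖ ≤ 4 + |T| := by
        have h3 : z = (z - c) + c := by ring
        have h4 : ‖c‖ ≤ 2 + |t| := by
          rw [hc]
          refine (norm_add_le _ _).trans ?_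
          simp
        rw [h3]
        refine (norm_add_le _ _).trans ?_
        rw [hz]
        linarith
      have h3 := lb hχ h1
      have h4 : ‖χ.LFunction z‖ ≤ A * q := by
        refine h3.trans ?_
        apply mul_le_mul_of_nonneg_right _ (by positivity)
        rw [hA]; linarith
      have h5 := Real.posLog_le_posLog (norm_nonneg _) h4
      refine h5.trans ?_
      rw [Real.posLog_eq_log]
      rw [abs_of_nonneg (by positivity)]
      nlinarith
  have h1 : Real.log (A * q) = Real.log A + Real.log q :=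
    Real.log_mul (by linarith) (by linarith)
  have h2 : - Real.log ‖χ.LFunction c‖ ≤ 2 * Real.log q := by
    have h3 : Real.log (1 / 3) ≤ Real.log ‖χ.LFunction c‖ := Real.log_le_log (by norm_num) hl
    have h4 : Real.log (1 / 3) = - Real.log 3 := by
      rw [one_div, Real.log_inv]
    have h5 : Real.log 3 ≤ 2 * Real.log 2 := by
      have : (2 : ℝ) * Real.log 2 = Real.log (2 ^ 2) := by
        rw [Real.log_pow]; norm_num
      rw [this]
      exact Real.log_le_log (by norm_num) (by norm_num)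
    linarith
  have h3 : Real.log A ≤ Real.log A / Real.log 2 * Real.log q := by
    rw [div_mul_eq_mul_div, le_div_iff₀ hl2]
    exact mul_le_mul_of_nonneg_left hlq hlA
  rw [div_mul_eq_mul_div, le_div_iff₀ hlr]
  linarith


end TRX

theorem trx : S_TRX := by
  intro T
  obtain ⟨C, hC, h1⟩ := trxA (fun f hf c r R hr hrR hc S hS => jen f hf c r R hr hrR hc S hS) T
  exact ⟨C, hC, fun q hq0 hq χ hχ t ht S hS => h1 q hq χ hχ t ht S hS⟩

lemma MS_diff {q : ℕ} (χ : DirichletCharacter ℂ q) (κ : ℝ) : Differentiable ℂ (fun s => MS χ κ s) := by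
  unfold MS
  apply Differentiable.fun_sum
  intro n hn
  rw [mem_Icc] at hn
  have hn0 : (n : ℂ) ≠ 0 := by
    have : n ≠ 0 := by omega
    exact_mod_cast this
  intro s
  exact ((differentiableAt_id.neg.const_cpow (Or.inl hn0)).const_mul _).const_mul _

lemma MP_diff {q : ℕ} (χ : DirichletCharacter ℂ q) (κ : ℝ) : Differentiable ℂ (fun s => MP χ κ s) := by
  unfold MP
  exact ((MS_diff χ κ).const_mul 2).sub (MS_diff χ (κ / 2))

lemma order_mono {f g : ℂ → ℂ} (hf : Differentiable ℂ f) (hg : Differentiable ℂ g) {c : ℂ}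
    (hc : f c * g c ≠ 0) (ρ : ℂ) :
    analyticOrderNatAt f ρ ≤ analyticOrderNatAt (fun s => f s * g s) ρ := by
  have hfa : AnalyticOnNhd ℂ f Set.univ := fun z _ => hf.analyticAt z
  have hga : AnalyticOnNhd ℂ g Set.univ := fun z _ => hg.analyticAt z
  have h1 : ∀ h : ℂ → ℂ, AnalyticOnNhd ℂ h Set.univ → h c ≠ 0 → analyticOrderAt h ρ ≠ ⊤ := by
    intro h hh h0
    apply hh.analyticOrderAt_ne_top_of_isPreconnected isPreconnected_univ (Set.mem_univ c)
      (Set.mem_univ ρ)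
    rw [(hh c (Set.mem_univ c)).analyticOrderAt_eq_zero.2 h0]
    simp
  have h2 := analyticOrderNatAt_mul (hf.analyticAt ρ) (hg.analyticAt ρ)
    (h1 f hfa (left_ne_zero_of_mul hc)) (h1 g hga (right_ne_zero_of_mul hc))
  have h3 : (fun s => f s * g s) = f * g := rfl
  rw [h3, h2]
  exact Nat.le_add_right _ _

lemma order_one {q : ℕ} [NeZero q] {χ : DirichletCharacter ℂ q} (hχ : χ ≠ 1) {ρ : ℂ}
    (hρ : 1 ≤ ρ.re) : analyticOrderNatAt χ.LFunction ρ = 0 := by
  have h1 := DirichletCharacter.LFunction_ne_zero_of_one_le_re χ (Or.inl hχ) hρ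
  by_contra h2
  exact h1 (apply_eq_zero_of_analyticOrderNatAt_ne_zero h2)

/-- the local zero density theorem for an abstract family -/
lemma zdl_aux {q : ℕ} [NeZero q] (hq : 1 < q) {ι : Type} [Fintype ι]
    (ψ : ι → DirichletCharacter ℂ q) (hψ : ∀ i, (ψ i).IsPrimitive) {κ P C c Λ L C1 t : ℝ}
    (hP : 0 ≤ P) (hC : 0 < C) (hc : 0 < c) (hΛ : 0 < Λ) (hC1 : 0 ≤ C1) (hlog : Real.log q = L)
    (hL : 20 * Λ ≤ L) (hcard : (Fintype.card ι : ℝ) ≤ P)
    (hF : ∀ s : ℂ, 1 / 2 - 3 * Λ / L ≤ s.re → s.re ≤ 10 → |s.im - t| ≤ 5 →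
      ∑ i, ‖(ψ i).LFunction s * MP (ψ i) κ s - 1‖ ^ 2 ≤
        C * Real.exp (-c * (s.re - 1 / 2) * L) * P)
    (htriv : ∀ χ : DirichletCharacter ℂ q, χ.IsPrimitive → ∀ S : Finset ℂ,
      (∀ ρ ∈ S, ‖ρ - (2 + (t : ℂ) * Complex.I)‖ ≤ 7 / 4) →
      ((∑ ρ ∈ S, analyticOrderNatAt χ.LFunction ρ : ℕ) : ℝ) ≤ C1 * Real.log q)
    (a : ℝ) (ha : -Λ ≤ a) (S : ι → Finset ℂ)
    (hS : ∀ θ, ∀ ρ ∈ S θ, 1 / 2 + a / L ≤ ρ.re ∧ |ρ.im - t| ≤ Λ / L) :
    ((∑ θ, ∑ ρ ∈ S θ, analyticOrderNatAt (ψ θ).LFunction ρ : ℕ) : ℝ) ≤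
      KZ C c Λ C1 * (16 / (c * Λ)) * Real.exp (-(c / 16) * a) * P := by
  have hne : ∀ θ, ψ θ ≠ 1 := by
    intro θ h
    have h5 : (ψ θ).conductor = q := hψ θ
    rw [h, DirichletCharacter.conductor_one] at h5
    omega
  have hLd : ∀ θ, Differentiable ℂ (ψ θ).LFunction :=
    fun θ => DirichletCharacter.differentiable_LFunction (hne θ)
  obtain ⟨f, hf⟩ : ∃ f : ι → ℂ → ℂ, f = fun θ s => (ψ θ).LFunction s * MP (ψ θ) κ s := ⟨_, rfl⟩
  have hfd : ∀ θ, Differentiable ℂ (f θ) := by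
    intro θ
    rw [hf]
    exact (hLd θ).mul (MP_diff _ κ)
  apply zones (t := t) f (fun θ ρ => analyticOrderNatAt (ψ θ).LFunction ρ) hP hC hc hΛ hC1 hL hcard
    (fun θ => (hfd θ).continuous)
  · intro s h1 h2 h3
    rw [hf]
    exact hF s h1 h2 h3
  · intro θ S' hS'
    have h5 := htriv _ (hψ θ) S' hS'
    rw [hlog] at h5
    exact h5
  · intro θ ρ hρ
    exact order_one (hne θ) hρ
  · intro θ z r R hr hrR h0 S' hS'
    have h5 := jen _ (hfd θ) z r R hr hrR h0 S' hS'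
    refine le_trans ?_ h5
    apply mul_le_mul_of_nonneg_right
    · have h6 : ∑ ρ ∈ S', analyticOrderNatAt (ψ θ).LFunction ρ ≤
          ∑ ρ ∈ S', analyticOrderNatAt (f θ) ρ := by
        refine sum_le_sum fun ρ _ => ?_
        rw [hf] at h0 ⊢
        exact order_mono (hLd θ) (MP_diff _ κ) h0 ρ
      exact_mod_cast h6
    · apply Real.log_nonneg
      rw [one_le_div hr]
      exact hrR.le
  · exact ha
  · exact hS

lemma card_le' (p : ℕ) [Fact p.Prime] (m : ℕ) :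
    (Fintype.card (DirichletCharacter ℂ (p ^ m)) : ℝ) ≤ (p : ℝ) ^ m := by
  have h5 : Fintype.card (DirichletCharacter ℂ (p ^ m)) ≤ p ^ m := by
    rw [← Nat.card_eq_fintype_card, DirichletCharacter.card_eq_totient_of_hasEnoughRootsOfUnity]
    exact Nat.totient_le _
  exact_mod_cast h5

/-- the local zero density theorem -/
theorem zdl (hX : S_FMX) : S_ZDL := by
  intro δ T Λ hδ hΛ
  obtain ⟨κ, hκ, -, h1⟩ := hX δ hδ
  obtain ⟨C, c, hC, hc, h2⟩ := h1 (T + 5) (3 * Λ) (by positivity)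
  obtain ⟨C1, hC1, h3⟩ := trx T
  refine ⟨KZ C c Λ C1 * (16 / (c * Λ)), c / 16, ?_, by positivity, ?_⟩
  · unfold KZ
    positivity
  intro p _ hp7
  obtain ⟨ν₀, h4⟩ := h2 p hp7
  have hp : p.Prime := Fact.out
  have hp2 : (7 : ℝ) ≤ p := by exact_mod_cast hp7
  have hlp : 0 < Real.log p := Real.log_pos (by linarith)
  obtain ⟨ν₁, hν₁⟩ := exists_nat_gt (20 * Λ / Real.log p)
  refine ⟨max (max ν₀ ν₁) 1, ?_⟩
  intro ν m hmν hν hm χ hχ t ht a ha S hS
  have hν0 : ν₀ ≤ ν := (le_max_left _ _).trans ((le_max_left _ _).trans hν)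
  have hν1 : ν₁ ≤ ν := (le_max_right _ _).trans ((le_max_left _ _).trans hν)
  have hν2 : 1 ≤ ν := (le_max_right _ _).trans hν
  have hq1 : 1 < p ^ ν := Nat.one_lt_pow (by omega) (by omega)
  have hL : 20 * Λ ≤ ν * Real.log p := by
    have h5 : 20 * Λ / Real.log p < ν := hν₁.trans_le (by exact_mod_cast hν1)
    rw [div_lt_iff₀ hlp] at h5
    exact h5.le
  have hlog : Real.log ((p ^ ν : ℕ) : ℝ) = ν * Real.log p := by
    push_cast
    exact Real.log_pow _ _
  have h6 := h4 ν m hmν hν0 hm χ hχ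
  have h7 := fun (χ : DirichletCharacter ℂ (p ^ ν)) hχ S => h3 (p ^ ν) hq1 χ hχ t ht S
  exact zdl_aux (κ := κ) hq1
    (fun θ : DirichletCharacter ℂ (p ^ m) =>
      χ * DirichletCharacter.changeLevel (pow_dvd_pow p hmν.le) θ)
    (fun θ => prim_mul hp hmν hχ θ) (by positivity) hC hc hΛ hC1.le hlog hL (card_le' p m)
    (fun s hs1 hs2 hs3 => h6 s hs1 hs2 (by
      have h7 : s.im = (s.im - t) + t := by ring
      rw [h7]
      refine (abs_add_le _ _).trans ?_
      linarith)) h7 a ha S hS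

/-- the final form -/
theorem zdf (h : S_ZDL) (hs : S_SYM) : S_ZDF := by
  intro δ T Λ hδ hΛ
  obtain ⟨C, c, hC, hc, h1⟩ := h δ T Λ hδ hΛ
  refine ⟨2 * C, c, by positivity, hc, ?_⟩
  intro p _ hp7
  obtain ⟨ν₀, h2⟩ := h1 p hp7
  have hp : p.Prime := Fact.out
  refine ⟨max ν₀ 1, ?_⟩
  intro ν m hmν hν hm χ hχ t ht a ha S hS
  have hν0 : ν₀ ≤ ν := (le_max_left _ _).trans hν
  have hν1 : 1 ≤ ν := (le_max_right _ _).trans hν
  haveI : NeZero (p ^ ν) := ⟨pow_ne_zero _ hp.ne_zero⟩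
  have hq1 : 1 < p ^ ν := Nat.one_lt_pow (by omega) (by omega)
  classical
  obtain ⟨S1, hS1⟩ : ∃ S1 : DirichletCharacter ℂ (p ^ m) → Finset ℂ,
    S1 = fun θ => (S θ).filter (fun ρ => 1 / 2 ≤ ρ.re) := ⟨_, rfl⟩
  obtain ⟨S2, hS2⟩ : ∃ S2 : DirichletCharacter ℂ (p ^ m) → Finset ℂ,
    S2 = fun θ => ((S θ).filter (fun ρ => ¬ 1 / 2 ≤ ρ.re)).image
      (fun ρ => 1 - (starRingEnd ℂ) ρ) := ⟨_, rfl⟩
  have h3 := h2 ν m hmν hν0 hm χ hχ t ht a (by linarith) S1 (by
    intro θ ρ hρ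
    rw [hS1] at hρ
    simp only [mem_filter] at hρ
    obtain ⟨h4, h5, h6, h7⟩ := hS θ ρ hρ.1
    refine ⟨?_, h7⟩
    rw [abs_of_nonneg (by linarith [hρ.2])] at h6
    linarith)
  have h4 := h2 ν m hmν hν0 hm χ hχ t ht a (by linarith) S2 (by
    intro θ ρ' hρ'
    rw [hS2] at hρ'
    simp only [mem_image, mem_filter] at hρ'
    obtain ⟨ρ, ⟨hρ1, hρ2⟩, rfl⟩ := hρ'
    obtain ⟨h4, h5, h6, h7⟩ := hS θ ρ hρ1
    push Not at hρ2
    have e1 : (1 - (starRingEnd ℂ) ρ).re = 1 - ρ.re := by simp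
    have e2 : (1 - (starRingEnd ℂ) ρ).im = ρ.im := by simp
    rw [e1, e2]
    refine ⟨?_, h7⟩
    rw [abs_of_neg (by linarith)] at h6
    linarith)
  have h5 : ∀ θ, ∑ ρ ∈ S θ, analyticOrderNatAt
      (χ * DirichletCharacter.changeLevel (pow_dvd_pow p hmν.le) θ).LFunction ρ =
      ∑ ρ ∈ S1 θ, analyticOrderNatAt
      (χ * DirichletCharacter.changeLevel (pow_dvd_pow p hmν.le) θ).LFunction ρ +
      ∑ ρ ∈ S2 θ, analyticOrderNatAt
      (χ * DirichletCharacter.changeLevel (pow_dvd_pow p hmν.le) θ).LFunction ρ := by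
    intro θ
    rw [hS1, hS2]
    simp only
    rw [sum_image, ← sum_filter_add_sum_filter_not (S θ) (fun ρ => 1 / 2 ≤ ρ.re)]
    · congr 1
      refine sum_congr rfl fun ρ hρ => ?_
      rw [mem_filter] at hρ
      obtain ⟨h6, h7, -, -⟩ := hS θ ρ hρ.1
      exact (hs (p ^ ν) hq1 _ (prim_mul hp hmν hχ θ) ρ h6 h7).symm
    · intro x _ y _ hxy
      have h6 : (starRingEnd ℂ) x = (starRingEnd ℂ) y := by
        simpa using hxy
      exact (starRingEnd ℂ).injective h6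
  rw [sum_congr rfl fun θ _ => h5 θ, sum_add_distrib]
  push_cast at h3 h4 ⊢
  have h6 : 2 * C * Real.exp (-c * a) * (p : ℝ) ^ m = C * Real.exp (-c * a) * (p : ℝ) ^ m +
      C * Real.exp (-c * a) * (p : ℝ) ^ m := by ring
  rw [h6]
  exact add_le_add h3 h4

end Pool.Agent.Y766.R11
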